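import Pool.Agent.V1138.RK.Mark
import Pool.Agent.V1138.RK.Ex

/-! A random sequence with `dim L < ∞` that is not a function of a finite-rank Markov process. -/

namespace Pool.Agent.Results.MP_d5803c_pr.NotFunctionOfFiniteRank

open MeasureTheory ProbabilityTheory Pool.V1138.RK
open scoped ENNReal

universe u v

/-- The process `X` with transition function `P` is of rank `r`:
`P(x,B) = ∑_{j<r} a_j(x) b_j(B)` with `a_j` measurable, `b_j` finite signed measures, the `b_j`
linearly independent, and no nontrivial relation `∑ c_j a_j(x) = 0` outside a null set (a set `N`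
with `pr{X_n ∈ N} = 0` for all `n`). -/
def HasRank {S' Ω' : Type*} [MeasurableSpace S'] [MeasurableSpace Ω'] (μ' : Measure Ω')
    (X : ℕ → Ω' → S') (P : Kernel S' S') (r : ℕ) : Prop :=
  ∃ (a : Fin r → S' → ℝ) (b : Fin r → SignedMeasure S'),
    (∀ j, Measurable (a j)) ∧
    (∀ x B, MeasurableSet B → (P x B).toReal = ∑ j, a j x * b j B) ∧
    LinearIndependent ℝ b ∧
    ∀ (c : Fin r → ℝ) (N : Set S'), MeasurableSet N → (∀ n, μ' (X n ⁻¹' N) = 0) →
      (∀ x ∉ N, ∑ j, c j * a j x = 0) → c = 0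

/-- `Y` has the finite-dimensional distributions of `(φ(X_n))` for some Markov process `X` of
finite rank and some measurable `φ`. -/
def IsFunctionOfFiniteRankMarkov {Ω S : Type*} [MeasurableSpace Ω] [MeasurableSpace S]
    (μ : Measure Ω) (Y : ℕ → Ω → S) : Prop :=
  ∃ (S' : Type u) (_ : MeasurableSpace S') (Ω' : Type v) (_ : MeasurableSpace Ω')
    (μ' : Measure Ω') (_ : IsProbabilityMeasure μ') (P : Kernel S' S') (_ : IsMarkovKernel P)
    (X : ℕ → Ω' → S') (r : ℕ) (φ : S' → S),
    IsMarkovProcess μ' X P ∧ HasRank μ' X P r ∧ Measurable φ ∧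
    ∀ n, μ'.map (fun ω (i : Fin n) => φ (X i ω)) = μ.map (fun ω (i : Fin n) => Y i ω)

lemma Yp_meas (i : ℕ) : Measurable (Yp i) := measurable_of_countable _
lemma Zp_meas (i : ℕ) : Measurable (Zp i) := measurable_of_countable _
lemma Wp_meas (i : ℕ) : Measurable (Wp i) := measurable_of_countable _

/-- parameters of the three product-geometric laws -/
noncomputable def rr : Fin 3 → ℝ × ℝ := ![(1/8, 1/2), (1/4, 1/4), (1/2, 1/8)]
noncomputable def cc : Fin 3 → ℝ := ![9/4, -(7/2), 9/4]

lemma rr_pos (k : Fin 3) : 0 < (rr k).1 ∧ (rr k).1 < 1 ∧ 0 < (rr k).2 ∧ (rr k).2 < 1 := by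
  fin_cases k <;> simp [rr] <;> norm_num

lemma pw_eq' (ω : ℕ × ℕ) : pw ω = ∑ k, cc k * w (rr k).1 (rr k).2 ω := by
  rw [pw_eq, Fin.sum_univ_three]
  simp [cc, rr]
  ring

lemma inst_w (k : Fin 3) : IsProbabilityMeasure (wm (w (rr k).1 (rr k).2)) := by
  obtain ⟨h1, h2, h3, h4⟩ := rr_pos k
  exact wm_prob (w_nn h1 h2 h3 h4) (w_hasSum h1 h2 h3 h4)

lemma inst_p : IsProbabilityMeasure (wm pw) := wm_prob pw_nn pw_hasSum

attribute [instance] inst_w inst_p

/-- The space `L` of the example is finite-dimensional. -/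
lemma fin_dim : FiniteDimL (wm pw) Yp Yp_meas := by
  unfold FiniteDimL
  set VV : Fin 3 × Fin 3 → ℕ → ℕ × ℕ → Fin 3 := fun kt =>
    if kt.2 = 0 then Yp else if kt.2 = 1 then Zp else Wp with hVV
  refine finite_L (K := Fin 3 × Fin 3) (wm pw) Yp Yp_meas
    (fun kt => wm (w (rr kt.1).1 (rr kt.1).2)) VV (fun kt i => measurable_of_countable _)
    (fun j f hf => ?_)
  have hsp := fun k => split (rr_pos k).1 (rr_pos k).2.1 (rr_pos k).2.2.1 (rr_pos k).2.2.2 j f hf
  choose cA cB cC hc using hsp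
  obtain ⟨C, hC⟩ := hf
  refine ⟨fun kt => cc kt.1 * (if kt.2 = 0 then cA kt.1 else if kt.2 = 1 then cB kt.1 else cC kt.1),
    fun l g hg => ?_⟩
  have hg' := hg
  obtain ⟨D, hD⟩ := hg
  have hb : ∀ ω : ℕ × ℕ, |f (fun i => Yp i ω) * g (fun i => Yp (j + i) ω)| ≤ C * D := by
    intro ω
    rw [abs_mul]
    exact mul_le_mul (hC _) (hD _) (abs_nonneg _) ((abs_nonneg _).trans (hC fun _ => 0))
  rw [wm_integral pw_nn _ (C * D) hb]
  have hsum : ∀ k, Summable (fun ω => w (rr k).1 (rr k).2 ω * (f (fun i => Yp i ω) * g (fun i => Yp (j + i) ω))) :=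
    fun k => wF_summable (rr_pos k).1 (rr_pos k).2.1 (rr_pos k).2.2.1 (rr_pos k).2.2.2 hb
  have e1 : ∑' ω, pw ω * (f (fun i => Yp i ω) * g (fun i => Yp (j + i) ω))
      = ∑ k, cc k * ∑' ω, w (rr k).1 (rr k).2 ω * (f (fun i => Yp i ω) * g (fun i => Yp (j + i) ω)) := by
    simp_rw [← tsum_mul_left]
    rw [← Summable.tsum_finsetSum (fun k _ => (hsum k).mul_left _)]
    refine tsum_congr (fun ω => ?_)
    rw [pw_eq', Finset.sum_mul]
    exact Finset.sum_congr rfl (fun k _ => by ring)
  rw [e1, Fintype.sum_prod_type]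
  refine Finset.sum_congr rfl (fun k _ => ?_)
  rw [hc k l g hg', Fin.sum_univ_three]
  have n1 : ¬ ((1 : Fin 3) = 0) := by decide
  have n2 : ¬ ((2 : Fin 3) = 0) := by decide
  have n3 : ¬ ((2 : Fin 3) = 1) := by decide
  simp only [hVV, if_true, if_neg n1, if_neg n2, if_neg n3]
  have hw := w_nn (rr_pos k).1 (rr_pos k).2.1 (rr_pos k).2.2.1 (rr_pos k).2.2.2
  rw [wm_integral hw _ D (fun ω => hD _), wm_integral hw _ D (fun ω => hD _),
    wm_integral hw _ D (fun ω => hD _)]
  ring

/-- **Disproof.** There is a random sequence `Y` (in a three-element space) with `dim L < ∞`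
whose finite-dimensional distributions are not those of `(φ(X_n))` for any finite-rank Markov
process `X` on any measurable space and any measurable `φ`. -/
theorem result : ∃ (μ : Measure (ℕ × ℕ)) (_ : IsProbabilityMeasure μ) (Y : ℕ → ℕ × ℕ → Fin 3)
    (hY : ∀ i, Measurable (Y i)),
    FiniteDimL μ Y hY ∧ ¬ IsFunctionOfFiniteRankMarkov.{u, v} μ Y := by
  refine ⟨wm pw, inst_p, Yp, Yp_meas, fin_dim, ?_⟩
  rintro ⟨S', _, Ω', _, μ', _, P, _, X, r, φ, hX, ⟨a, b, ham, hP, hb, _⟩, hφ, hlaw⟩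
  refine no_rep hX a b ham hP hb (Fa := φ ⁻¹' {0}) (Fb := φ ⁻¹' {1}) (Fc := φ ⁻¹' {2})
    (hφ (measurableSet_singleton _)) (hφ (measurableSet_singleton _))
    (hφ (measurableSet_singleton _)) (fun n m => ?_)
  set wd : Fin (n+2+(m+1)+1) → Fin 3 := fun i =>
    if (i:ℕ) < n+2 then 0 else if (i:ℕ) < n+2+(m+1) then 1 else 2 with hwd
  have h1 := congrArg (fun κ => κ {wd}) (hlaw (n+2+(m+1)+1))
  have m1 : Measurable (fun ω (i : Fin (n+2+(m+1)+1)) => φ (X i ω)) :=
    measurable_pi_lambda _ (fun i => hφ.comp (hX.1 i))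
  have m2 : Measurable (fun ω (i : Fin (n+2+(m+1)+1)) => Yp i ω) :=
    measurable_pi_lambda _ (fun i => Yp_meas i)
  rw [Measure.map_apply m1 (measurableSet_singleton _),
    Measure.map_apply m2 (measurableSet_singleton _)] at h1
  have e1 : (fun ω (i : Fin (n+2+(m+1)+1)) => φ (X i ω)) ⁻¹' {wd}
      = {ω | (∀ i < n+2+(m+1), X i ω ∈ (if i < n+2 then φ ⁻¹' {0} else φ ⁻¹' {1}))
        ∧ X (n+2+(m+1)) ω ∈ φ ⁻¹' {2}} := by
    ext ω
    simp only [Set.mem_preimage, Set.mem_singleton_iff, Set.mem_ofPred_eq]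
    constructor
    · intro h
      constructor
      · intro i hi
        have h2 := congrFun h ⟨i, by omega⟩
        simp only [hwd] at h2
        split_ifs at h2 ⊢ with h3
        · exact h2
        · exact h2
      · have h2 := congrFun h ⟨n+2+(m+1), by omega⟩
        simp only [hwd] at h2
        rw [if_neg (by omega), if_neg (by omega)] at h2
        exact h2
    · rintro ⟨h2, h3⟩
      funext i
      simp only [hwd]
      by_cases hi : (i:ℕ) < n+2+(m+1)
      · have h4 := h2 i hi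
        split_ifs at h4 ⊢ with h5
        · exact h4
        · exact h4
      · have hi2 : (i:ℕ) = n+2+(m+1) := by have := i.2; omega
        rw [if_neg (by omega), if_neg hi, hi2]
        exact h3
  have e2 : (fun ω (i : Fin (n+2+(m+1)+1)) => Yp i ω) ⁻¹' {wd} = {(n+1, m)} := by
    ext ⟨n', m'⟩
    simp only [Set.mem_preimage, Set.mem_singleton_iff, Prod.mk.injEq]
    constructor
    · intro h
      have g1 := congrFun h ⟨n+1, by omega⟩
      have g2 := congrFun h ⟨n+2, by omega⟩
      have g3 := congrFun h ⟨n+2+m, by omega⟩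
      have g4 := congrFun h ⟨n+2+(m+1), by omega⟩
      simp only [hwd, Yp] at g1 g2 g3 g4
      rw [if_pos (show n+1 < n+2 by omega)] at g1
      rw [if_neg (show ¬ (n+2 < n+2) by omega), if_pos (show n+2 < n+2+(m+1) by omega)] at g2
      rw [if_neg (show ¬ (n+2+m < n+2) by omega), if_pos (show n+2+m < n+2+(m+1) by omega)] at g3
      rw [if_neg (show ¬ (n+2+(m+1) < n+2) by omega), if_neg (show ¬ (n+2+(m+1) < n+2+(m+1)) by omega)] at g4
      have k1 : n + 1 < n' + 1 := by
        by_contra hc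
        rw [if_neg hc] at g1
        split_ifs at g1
        · exact absurd g1 (by decide)
        · exact absurd g1 (by decide)
      have k2 : ¬ (n + 2 < n' + 1) := by
        intro hc
        rw [if_pos hc] at g2
        exact absurd g2 (by decide)
      have k3 : n+2+m < n'+1+(m'+1) := by
        by_contra hc
        rw [if_neg (by omega), if_neg hc] at g3
        exact absurd g3 (by decide)
      have k4 : ¬ (n+2+(m+1) < n'+1+(m'+1)) := by
        intro hc
        rw [if_neg (by omega), if_pos hc] at g4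
        exact absurd g4 (by decide)
      omega
    · rintro ⟨rfl, rfl⟩
      funext i
      simp only [hwd, Yp]
  rw [e1, e2, wm_singleton] at h1
  rw [h1, ENNReal.ofReal_eq_zero]
  unfold pw
  constructor
  · intro h
    by_contra hne
    have h2 : ((1:ℝ)/2)^(n+1) ≠ (1/2)^m := by
      intro heq
      exact hne (pow_right_injective₀ (by norm_num) (by norm_num) heq)
    have h3 : ((1:ℝ)/2)^(n+1) - (1/2)^m ≠ 0 := sub_ne_zero.mpr h2
    have h4 : 0 < 63/64 * ((1:ℝ)/2)^(n+1+m) * ((1/2)^(n+1) - (1/2)^m)^2 := by positivity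
    linarith
  · rintro rfl
    simp

end Pool.Agent.Results.MP_d5803c_pr.NotFunctionOfFiniteRank
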